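import Mathlib
import Pool.Agent.H204R3.CM.Defs

/-!
# Abelian varieties of CM type, and the classes generated by divisors and by certain Weil classes
of codimension two on products `Y × B`, with a fixed abelian variety `B` of CM type
-/

namespace Pool.Agent.W547.KB

open NumberField Pool.Agent.H204R3.CM

/-- A CM field `E` with a CM type `Φ`. -/
structure CMPair where
  /-- the field -/
  E : Type
  [field : Field E]
  [numberField : NumberField E]
  [cm : IsCMField E]
  /-- the CM type -/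
  Φ : Set (E →+* ℂ)
  isCMType : IsCMType Φ

attribute [instance] CMPair.field CMPair.numberField CMPair.cm

/-- An abelian variety of CM type (up to isogeny): a finite product of abelian varieties `A i` of
CM types `(E i, Φ i)`. -/
structure CMAV where
  /-- the set of indices of the factors -/
  I : Type
  [fintype : Fintype I]
  /-- the CM types of the factors -/
  factor : I → CMPair

attribute [instance] CMAV.fintype

/-- The rational homology `H_1(X, ℚ)` of the product: the product of the fields `E i`. -/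
abbrev CMAV.H1 (X : CMAV) : Type := ∀ i, (X.factor i).E

/-- The tangent space of the product: the product of the spaces `ℂ ^ (Φ i)`. -/
abbrev CMAV.Tan (X : CMAV) : Type := ∀ i, (X.factor i).Φ → ℂ

instance (priority := 10000) CMAV.gH (X : CMAV) : AddCommGroup X.H1 := Pi.addCommGroup

instance (priority := 10000) CMAV.mH (X : CMAV) : AddCommMonoid X.H1 := X.gH.toAddCommMonoid

instance (priority := 10000) CMAV.qH (X : CMAV) : Module ℚ X.H1 := Pi.module _ _ _

instance (priority := 10000) CMAV.gT (X : CMAV) : AddCommGroup X.Tan := Pi.addCommGroup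

instance (priority := 10000) CMAV.mT (X : CMAV) : AddCommMonoid X.Tan := X.gT.toAddCommMonoid

instance (priority := 10000) CMAV.cT (X : CMAV) : Module ℂ X.Tan := Pi.module _ _ _

/-- The inclusion of the rational homology into the tangent space. -/
def CMAV.per (X : CMAV) : X.H1 →+ X.Tan where
  toFun w := fun i φ => φ.1 (w i)
  map_zero' := by
    funext i φ
    exact map_zero φ.1
  map_add' v w := by
    funext i φ
    exact map_add φ.1 _ _

/-- The product of two abelian varieties of CM type. -/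
abbrev CMAV.prod (X Y : CMAV) : CMAV := ⟨X.I ⊕ Y.I, Sum.elim X.factor Y.factor⟩

/-- The element `(w, w')` of `H_1(X × Y, ℚ) = H_1(X, ℚ) × H_1(Y, ℚ)`. -/
def CMAV.pair (X Y : CMAV) (w : X.H1) (w' : Y.H1) : (X.prod Y).H1 :=
  fun s => Sum.rec (motive := fun s => ((X.prod Y).factor s).E) (fun i => w i) (fun i => w' i) s

/-- A rational linear map `H_1(X, ℚ) → H_1(Y, ℚ)` is (a rational multiple of) a homomorphism
`X → Y` if it is compatible with a complex linear map of the tangent spaces. -/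
def IsHom (X Y : CMAV) (h : X.H1 →ₗ[ℚ] Y.H1) : Prop :=
  ∃ H : X.Tan →ₗ[ℂ] Y.Tan, ∀ w, H (X.per w) = Y.per (h w)

/-- The product of three abelian varieties of CM types `(L, Φ i)`. -/
abbrev three (L : Type) [Field L] [NumberField L] [IsCMField L] (Φ : Fin 3 → Set (L →+* ℂ))
    (hΦ : ∀ i, IsCMType (Φ i)) : CMAV := ⟨Fin 3, fun i => ⟨L, Φ i, hΦ i⟩⟩

/-- The abelian variety of CM type `B`. -/
abbrev single (B : CMPair) : CMAV := ⟨Unit, fun _ => B⟩

/-- The product of three abelian varieties of CM types `(L, Φ i)` and of `B`. -/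
abbrev threeB (B : CMPair) (L : Type) [Field L] [NumberField L] [IsCMField L]
    (Φ : Fin 3 → Set (L →+* ℂ)) (hΦ : ∀ i, IsCMType (Φ i)) : CMAV :=
  (three L Φ hΦ).prod (single B)

/-- The matrix over `L` with rows `(x₀, x₁, x₂, ι t)`, for four elements `(x₀, x₁, x₂, t)` of the
rational homology of the product; `ι` embeds the field of `B` into `L`. -/
def weilMat (B : CMPair) (L : Type) [Field L] [NumberField L] [IsCMField L] (ι : B.E →+* L)
    (Φ : Fin 3 → Set (L →+* ℂ)) (hΦ : ∀ i, IsCMType (Φ i)) (x : Fin 4 → (three L Φ hΦ).H1)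
    (t : Fin 4 → (single B).H1) : Matrix (Fin 4) (Fin 4) L :=
  Matrix.of fun k => ![x k 0, x k 1, x k 2, ι (t k ())]

/-- The rational number `Tr (α det M)`. -/
noncomputable def trDet {L : Type} [Field L] [NumberField L] (α : L) (M : Matrix (Fin 4) (Fin 4) L) : ℚ :=
  Algebra.trace ℚ L (α * M.det)

/-- `f` is the Weil form `Tr (α x₀ ∧ x₁ ∧ x₂ ∧ t)` of degree four on the product of three abelian
varieties of CM types `(L, Φ i)` and of `B`. -/
def IsWeilForm (B : CMPair) (L : Type) [Field L] [NumberField L] [IsCMField L] (ι : B.E →+* L)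
    (Φ : Fin 3 → Set (L →+* ℂ)) (hΦ : ∀ i, IsCMType (Φ i)) (α : L)
    (f : (threeB B L Φ hΦ).H1 [⋀^Fin 4]→ₗ[ℚ] ℚ) : Prop :=
  ∀ (x : Fin 4 → (three L Φ hΦ).H1) (t : Fin 4 → (single B).H1),
    f (fun k => (three L Φ hΦ).pair (single B) (x k) (t k)) = trDet α (weilMat B L ι Φ hΦ x t)

/-- Fix a CM type `B`. The smallest system of cohomology classes `f ∈ H^κ(X, ℚ)` of abelian
varieties `X` of CM type (alternating forms on `H_1(X, ℚ)` in variables indexed by the finite set
`κ`) which contains the Hodge classes of degree two and the Weil classes of degree four on products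
`Y × B` described below, and which is stable under linear combinations, cup products, pull-backs
along homomorphisms and push-forwards along projections `X × Y → X`. -/
inductive Gen (B : CMPair) : (X : CMAV) → (κ : Type) → (X.H1 [⋀^κ]→ₗ[ℚ] ℚ) → Prop
  /-- classes of degree zero -/
  | unit {X : CMAV} {κ : Type} [IsEmpty κ] (f : X.H1 [⋀^κ]→ₗ[ℚ] ℚ) : Gen B X κ f
  /-- Hodge classes of degree two -/
  | divisor {X : CMAV} {κ : Type} (hκ : Nat.card κ = 2) (f : X.H1 [⋀^κ]→ₗ[ℚ] ℚ)
      (hf : IsHodge X.per f) : Gen B X κ f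
  /-- the Weil classes `Tr (α x₀ ∧ x₁ ∧ x₂ ∧ t)` of degree four on `Y × B`, where `Y` is the
  product of three abelian varieties of CM types `(L, Φ i)`, `L` is a Galois CM field containing
  the field of `B` by `ι`, `Φ 0 ∩ Φ 1 = {ρ}`, and `Φ 2` meets the CM type of `L` induced from `B`
  exactly in the conjugate of `ρ` -/
  | weil (L : Type) [Field L] [NumberField L] [IsCMField L] [IsGalois ℚ L] (ι : B.E →+* L)
      (Φ : Fin 3 → Set (L →+* ℂ)) (hΦ : ∀ i, IsCMType (Φ i)) (ρ : L →+* ℂ)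
      (h01 : Φ 0 ∩ Φ 1 = {ρ})
      (h2 : Φ 2 ∩ {φ | φ.comp ι ∈ B.Φ} = {ComplexEmbedding.conjugate ρ}) (α : L)
      (f : (threeB B L Φ hΦ).H1 [⋀^Fin 4]→ₗ[ℚ] ℚ) (hf : IsWeilForm B L ι Φ hΦ α f) :
      Gen B (threeB B L Φ hΦ) (Fin 4) f
  | zero (X : CMAV) (κ : Type) : Gen B X κ 0
  | add {X : CMAV} {κ : Type} (f g : X.H1 [⋀^κ]→ₗ[ℚ] ℚ) (hf : Gen B X κ f) (hg : Gen B X κ g) :
      Gen B X κ (f + g)
  | smul {X : CMAV} {κ : Type} (a : ℚ) (f : X.H1 [⋀^κ]→ₗ[ℚ] ℚ) (hf : Gen B X κ f) :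
      Gen B X κ (a • f)
  /-- renaming of the variables -/
  | reindex {X : CMAV} {κ κ' : Type} (e : κ ≃ κ') (f : X.H1 [⋀^κ]→ₗ[ℚ] ℚ) (hf : Gen B X κ f) :
      Gen B X κ' (f.domDomCongr e)
  /-- cup products (up to a factor) -/
  | cup {X : CMAV} {κ κ' : Type} [Fintype κ] [DecidableEq κ] [Fintype κ'] [DecidableEq κ']
      (f : X.H1 [⋀^κ]→ₗ[ℚ] ℚ) (g : X.H1 [⋀^κ']→ₗ[ℚ] ℚ) (hf : Gen B X κ f) (hg : Gen B X κ' g)
      (h : X.H1 [⋀^κ ⊕ κ']→ₗ[ℚ] ℚ)
      (hh : ∀ v : κ ⊕ κ' → X.H1, h v = ∑ σ : Equiv.Perm (κ ⊕ κ'), ((Equiv.Perm.sign σ : ℤ) : ℚ) *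
        (f (fun k => v (σ (Sum.inl k))) * g (fun k => v (σ (Sum.inr k))))) :
      Gen B X (κ ⊕ κ') h
  /-- pull-back along a homomorphism -/
  | pull {X Y : CMAV} {κ : Type} (h : X.H1 →ₗ[ℚ] Y.H1) (hh : IsHom X Y h)
      (f : Y.H1 [⋀^κ]→ₗ[ℚ] ℚ) (hf : Gen B Y κ f) : Gen B X κ (f.compLinearMap h)
  /-- push-forward (integration over the fibres) along the projection `X × Y → X`: insert a basis
  of `H_1(Y, ℚ)` -/
  | push {X Y : CMAV} {κ κ' : Type} (b : Module.Basis κ' ℚ Y.H1)
      (f : (X.prod Y).H1 [⋀^κ ⊕ κ']→ₗ[ℚ] ℚ) (hf : Gen B (X.prod Y) (κ ⊕ κ') f)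
      (g : X.H1 [⋀^κ]→ₗ[ℚ] ℚ)
      (hg : ∀ v : κ → X.H1,
        g v = f (Sum.elim (fun k => X.pair Y (v k) 0) (fun k => X.pair Y 0 (b k)))) :
      Gen B X κ g

end Pool.Agent.W547.KB
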