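import Pool.Agent.W547.KB.Final

/-!
# The generated classes are Hodge classes
-/

set_option linter.unusedSectionVars false
set_option linter.unusedVariables false

namespace Pool.Agent.W547.KB

open NumberField Pool.Agent.H204R3.CM Equiv Module

noncomputable section

variable {B : CMPair} {X Y : CMAV} {κ κ' : Type}

/-- The determinant over the reals of the multiplication by a complex number of absolute value
one. -/
theorem det_unit {V : Type*} [AddCommGroup V] [Module ℂ V] [FiniteDimensional ℂ V] {z : ℂ}
    (hz : ‖z‖ = 1) :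
    LinearMap.det ((z • (LinearMap.id : V →ₗ[ℂ] V)).restrictScalars ℝ) = 1 := by
  rw [LinearMap.det_restrictScalars, LinearMap.det_smul, LinearMap.det_id, mul_one, map_pow,
    Algebra.norm_complex_apply, Complex.normSq_eq_norm_sq, hz]
  norm_num

/-- Alternating forms in at least as many variables as the dimension are invariant under complex
numbers of absolute value one. -/
theorem alt_unit {V : Type*} [AddCommGroup V] [Module ℂ V] [FiniteDimensional ℂ V] [Fintype κ']
    (hcard : finrank ℝ V ≤ Fintype.card κ') (A : V [⋀^κ']→ₗ[ℝ] ℝ) {z : ℂ} (hz : ‖z‖ = 1)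
    (y : κ' → V) : A (fun k => z • y k) = A y := by
  classical
  have hfd : FiniteDimensional ℝ V := FiniteDimensional.complexToReal V
  rcases hcard.lt_or_eq with h | h
  · have h1 : ∀ y : κ' → V, A y = 0 := by
      intro y
      refine A.map_linearDependent y fun hli => ?_
      have h2 := hli.fintype_card_le_finrank
      omega
    rw [h1, h1]
  · let e : Basis κ' ℝ V := (Module.finBasis ℝ V).reindex
      (Fintype.equivOfCardEq (by rw [Fintype.card_fin, h]))
    rw [A.eq_smul_basis_det e, AlternatingMap.smul_apply, AlternatingMap.smul_apply]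
    congr 1
    have h1 : (fun k => z • y k) = ((z • (LinearMap.id : V →ₗ[ℂ] V)).restrictScalars ℝ) ∘ y := rfl
    rw [h1, Basis.det_comp, det_unit hz, one_mul]

theorem span_perX (X : CMAV) : Submodule.span ℝ (Set.range X.per) = ⊤ :=
  span_per (E := fun i => (X.factor i).E) (Φ := fun i => (X.factor i).Φ) (fun i : X.I => i)
    (fun i => (X.factor i).isCMType)

/-- The images of a rational basis span the tangent space over the reals. -/
theorem span_basis (b : Basis κ' ℚ Y.H1) :
    Submodule.span ℝ (Set.range fun k => Y.per (b k)) = ⊤ := by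
  rw [eq_top_iff, ← span_perX Y, Submodule.span_le]
  rintro _ ⟨w, rfl⟩
  have h1 : w ∈ Submodule.span ℚ (Set.range b) := by
    rw [b.span_eq]
    trivial
  induction h1 using Submodule.span_induction with
  | mem w hw =>
    obtain ⟨k, rfl⟩ := hw
    exact Submodule.subset_span ⟨k, rfl⟩
  | zero =>
    rw [map_zero]
    exact Submodule.zero_mem _
  | add w w' _ _ h h' =>
    rw [map_add]
    exact Submodule.add_mem _ h h'
  | smul a w _ h =>
    have h2 : Y.per (a • w) = (a : ℝ) • Y.per w := by
      rw [map_rat_smul]
      funext i φ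
      change a • (Y.per w i φ) = (a : ℝ) • (Y.per w i φ)
      rw [Rat.smul_def, Complex.real_smul, Complex.ofReal_ratCast]
    rw [h2]
    exact Submodule.smul_mem _ _ h

/-- An alternating real form extending a Hodge class. -/
theorem exists_alt [Fintype κ] [DecidableEq κ] {f : X.H1 [⋀^κ]→ₗ[ℚ] ℚ} (hf : IsHodge X.per f) :
    ∃ ψ : X.Tan [⋀^κ]→ₗ[ℝ] ℝ, (∀ v : κ → X.H1, ψ (fun l => X.per (v l)) = f v) ∧
      ∀ z : ℂ, ‖z‖ = 1 → ∀ u : κ → X.Tan, ψ (fun l => z • u l) = ψ u := by
  obtain ⟨ψ, h1, h2⟩ := hf
  refine ⟨((Fintype.card (Perm κ) : ℝ))⁻¹ • MultilinearMap.alternatization ψ, fun v => ?_,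
    fun z hz u => ?_⟩
  · rw [AlternatingMap.smul_apply, MultilinearMap.alternatization_apply]
    have h3 : ∀ σ : Perm κ, Perm.sign σ • (ψ.domDomCongr σ) (fun l => X.per (v l)) = (f v : ℝ) := by
      intro σ
      have h4 : (ψ.domDomCongr σ) (fun l => X.per (v l)) = f (fun l => v (σ l)) :=
        h1 (fun l => v (σ l))
      have h5 : f (fun l => v (σ l)) = Perm.sign σ • f v := f.map_perm v σ
      rw [h4, h5, Units.smul_def, Units.smul_def, zsmul_eq_mul, zsmul_eq_mul, Rat.cast_mul,
        Rat.cast_intCast, ← mul_assoc, ← Int.cast_mul, ← Units.val_mul, Int.units_mul_self,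
        Units.val_one, Int.cast_one, one_mul]
    rw [Finset.sum_congr rfl (fun σ _ => h3 σ), Finset.sum_const, Finset.card_univ, nsmul_eq_mul,
      smul_eq_mul, ← mul_assoc, inv_mul_cancel₀ (Nat.cast_ne_zero.2 Fintype.card_ne_zero), one_mul]
  · rw [AlternatingMap.smul_apply, AlternatingMap.smul_apply, MultilinearMap.alternatization_apply,
      MultilinearMap.alternatization_apply]
    congr 1
    refine Finset.sum_congr rfl fun σ _ => ?_
    congr 1
    exact h2 z hz (fun l => u (σ l))

/-- The element `(u, u')` of the tangent space of a product. -/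
def pairT (X Y : CMAV) (u : X.Tan) (u' : Y.Tan) : (X.prod Y).Tan :=
  fun s => Sum.rec (motive := fun s => ((X.prod Y).factor s).Φ → ℂ) (fun i => u i) (fun i => u' i) s

theorem per_pair (w : X.H1) (w' : Y.H1) :
    (X.prod Y).per (X.pair Y w w') = pairT X Y (X.per w) (Y.per w') := by
  funext s
  cases s <;> rfl

/-- The inclusion of the first tangent space. -/
def inT (X Y : CMAV) : X.Tan →ₗ[ℂ] (X.prod Y).Tan where
  toFun u := pairT X Y u 0
  map_add' u u' := by
    funext s
    cases s
    · rfl
    · exact (add_zero _).symm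
  map_smul' a u := by
    funext s
    cases s
    · rfl
    · exact (smul_zero a).symm

/-- The inclusion of the second tangent space. -/
def inT' (X Y : CMAV) : Y.Tan →ₗ[ℂ] (X.prod Y).Tan where
  toFun u := pairT X Y 0 u
  map_add' u u' := by
    funext s
    cases s
    · exact (add_zero _).symm
    · rfl
  map_smul' a u := by
    funext s
    cases s
    · exact (smul_zero a).symm
    · rfl

/-- Fix the second part of the variables. -/
def fixR (ψ : (X.prod Y).Tan [⋀^κ ⊕ κ']→ₗ[ℝ] ℝ) (y : κ' → (X.prod Y).Tan) :
    MultilinearMap ℝ (fun _ : κ => X.Tan) ℝ where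
  toFun u := ψ (Sum.elim (fun k => inT X Y (u k)) y)
  map_update_add' := by
    classical
    intro hd u k a b
    have h1 : ∀ z : X.Tan, Sum.elim (fun k' => inT X Y (Function.update u k z k')) y =
        Function.update (Sum.elim (fun k' => inT X Y (u k')) y) (Sum.inl k) (inT X Y z) := by
      intro z
      funext s
      rcases s with s | s
      · by_cases h : s = k
        · subst h; simp
        · simp [h]
      · simp
    rw [h1, h1, h1, map_add, AlternatingMap.map_update_add]
  map_update_smul' := by
    classical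
    intro hd u k c x
    have h1 : ∀ z : X.Tan, Sum.elim (fun k' => inT X Y (Function.update u k z k')) y =
        Function.update (Sum.elim (fun k' => inT X Y (u k')) y) (Sum.inl k) (inT X Y z) := by
      intro z
      funext s
      rcases s with s | s
      · by_cases h : s = k
        · subst h; simp
        · simp [h]
      · simp
    have h2 : inT X Y (c • x) = c • inT X Y x := ((inT X Y).restrictScalars ℝ).map_smul c x
    rw [h1, h1, h2, AlternatingMap.map_update_smul]

/-- Fix the first part of the variables. -/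
def fixL (ψ : (X.prod Y).Tan [⋀^κ ⊕ κ']→ₗ[ℝ] ℝ) (u : κ → (X.prod Y).Tan) :
    Y.Tan [⋀^κ']→ₗ[ℝ] ℝ where
  toFun y := ψ (Sum.elim u (fun k => inT' X Y (y k)))
  map_update_add' := by
    classical
    intro hd y k a b
    have h1 : ∀ z : Y.Tan, Sum.elim u (fun k' => inT' X Y (Function.update y k z k')) =
        Function.update (Sum.elim u (fun k' => inT' X Y (y k'))) (Sum.inr k) (inT' X Y z) := by
      intro z
      funext s
      rcases s with s | s
      · simp
      · by_cases h : s = k
        · subst h; simp
        · simp [h]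
    rw [h1, h1, h1, map_add, AlternatingMap.map_update_add]
  map_update_smul' := by
    classical
    intro hd y k c x
    have h1 : ∀ z : Y.Tan, Sum.elim u (fun k' => inT' X Y (Function.update y k z k')) =
        Function.update (Sum.elim u (fun k' => inT' X Y (y k'))) (Sum.inr k) (inT' X Y z) := by
      intro z
      funext s
      rcases s with s | s
      · simp
      · by_cases h : s = k
        · subst h; simp
        · simp [h]
    have h2 : inT' X Y (c • x) = c • inT' X Y x := ((inT' X Y).restrictScalars ℝ).map_smul c x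
    rw [h1, h1, h2, AlternatingMap.map_update_smul]
  map_eq_zero_of_eq' y i k hy hik := by
    refine ψ.map_eq_zero_of_eq _ (i := Sum.inr i) (j := Sum.inr k) ?_ (by simpa using hik)
    simp [hy]

theorem hodge_push [Finite κ] (b : Basis κ' ℚ Y.H1) {f : (X.prod Y).H1 [⋀^κ ⊕ κ']→ₗ[ℚ] ℚ}
    (hf : IsHodge (X.prod Y).per f) (g : X.H1 [⋀^κ]→ₗ[ℚ] ℚ)
    (hg : ∀ v : κ → X.H1,
      g v = f (Sum.elim (fun k => X.pair Y (v k) 0) (fun k => X.pair Y 0 (b k)))) :
    IsHodge X.per g := by
  classical
  have := Fintype.ofFinite κ
  have : Finite κ' := Module.Finite.finite_basis b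
  have := Fintype.ofFinite κ'
  obtain ⟨ψ, h1, h2⟩ := exists_alt hf
  refine ⟨fixR ψ (fun k => inT' X Y (Y.per (b k))), fun v => ?_, fun z hz u => ?_⟩
  · have h3 : (Sum.elim (fun k => inT X Y (X.per (v k))) (fun k => inT' X Y (Y.per (b k))) :
        κ ⊕ κ' → (X.prod Y).Tan) = fun l => (X.prod Y).per
          (Sum.elim (fun k => X.pair Y (v k) 0) (fun k => X.pair Y 0 (b k)) l) := by
      funext s
      rcases s with k | k
      · change pairT X Y (X.per (v k)) 0 = (X.prod Y).per (X.pair Y (v k) 0)
        rw [per_pair, map_zero]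
      · change pairT X Y 0 (Y.per (b k)) = (X.prod Y).per (X.pair Y 0 (b k))
        rw [per_pair, map_zero]
    change ψ _ = _
    rw [h3, h1, hg]
  · have hfin : finrank ℝ Y.Tan ≤ Fintype.card κ' := by
      have h4 := finrank_range_le_card (R := ℝ) (fun k => Y.per (b k))
      rw [Set.finrank, span_basis b, finrank_top] at h4
      exact h4
    have hz' : ‖z⁻¹‖ = 1 := by rw [norm_inv, hz, inv_one]
    have hz0 : z ≠ 0 := by
      intro h
      rw [h, norm_zero] at hz
      exact zero_ne_one hz
    change ψ (Sum.elim (fun k => inT X Y (z • u k)) (fun k => inT' X Y (Y.per (b k)))) =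
      ψ (Sum.elim (fun k => inT X Y (u k)) (fun k => inT' X Y (Y.per (b k))))
    have h5 : (Sum.elim (fun k => inT X Y (z • u k)) (fun k => inT' X Y (Y.per (b k))) :
        κ ⊕ κ' → (X.prod Y).Tan) = fun l => z •
          (Sum.elim (fun k => inT X Y (u k)) (fun k => inT' X Y (z⁻¹ • Y.per (b k))) l) := by
      funext s
      rcases s with k | k
      · exact (inT X Y).map_smul z (u k)
      · change inT' X Y (Y.per (b k)) = z • inT' X Y (z⁻¹ • Y.per (b k))
        rw [map_smul, smul_smul, mul_inv_cancel₀ hz0, one_smul]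
    rw [h5, h2 z hz]
    exact alt_unit hfin (fixL ψ (fun k => inT X Y (u k))) hz' (fun k => Y.per (b k))

end

end Pool.Agent.W547.KB
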