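import Pool.Agent.W547.KB.Canon

/-!
# Relative traces
-/

set_option linter.unusedSectionVars false
set_option linter.unusedVariables false

namespace Pool.Agent.W547.KB

open NumberField Pool.Agent.H204R3.CM Equiv Module

noncomputable section

variable {K L : Type} [Field K] [NumberField K] [Field L] [NumberField L]

/-- The relative trace along an embedding of fields. -/
def rtr (ι : K →+* L) : L →+ K := by
  let _ := ι.toAlgebra
  exact (Algebra.trace K L : L →ₗ[K] K).toAddMonoidHom

theorem rtr_smul (ι : K →+* L) (a : ℚ) (x : L) : rtr ι (a • x) = a • rtr ι x :=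
  map_rat_smul (rtr ι) a x

theorem rtr_emb [IsCMField L] [IsGalois ℚ L] [DecidableEq (K →+* ℂ)] (ι : K →+* L)
    (j : L →+* ℂ) (ψ : K →+* ℂ) (x : L) :
    ψ (rtr ι x) = ∑ σ : L ≃ₐ[ℚ] L, if j.comp (σ • ι) = ψ then j (σ x) else 0 := by
  let _ := ι.toAlgebra
  let _ := ψ.toAlgebra
  have : IsScalarTower ℚ K L := inferInstance
  have : FiniteDimensional K L := Module.Finite.of_restrictScalars_finite ℚ K L
  have h1 : ψ (rtr ι x) = ∑ φ : L →ₐ[K] ℂ, φ x :=
    trace_eq_sum_embeddings (K := K) (L := L) ℂ (x := x)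
  rw [h1, ← Finset.sum_filter]
  symm
  refine Finset.sum_bij (fun σ hσ => ({ (j.comp (σ : L →+* L)) with
    commutes' := fun k => by
      have h2 := (Finset.mem_filter.1 hσ).2
      exact RingHom.congr_fun h2 k } : L →ₐ[K] ℂ)) ?_ ?_ ?_ ?_
  · intro σ hσ
    exact Finset.mem_univ _
  · intro σ hσ τ hτ h
    apply comp_injective j
    ext y
    exact DFunLike.congr_fun h y
  · intro φ _
    obtain ⟨σ, hσ⟩ := comp_surjective j (φ : L →+* ℂ)
    refine ⟨σ, ?_, ?_⟩
    · rw [Finset.mem_filter]
      refine ⟨Finset.mem_univ _, ?_⟩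
      ext k
      have h2 := RingHom.congr_fun hσ (ι k)
      have h3 : φ (ι k) = ψ k := φ.commutes k
      exact h2.trans h3
    · ext y
      exact RingHom.congr_fun hσ y
  · intro σ hσ
    rfl

theorem exists_rdual (ι : K →+* L) :
    ∃ (n : ℕ) (a b : Fin n → L), ∀ y : L, y = ∑ i, b i * ι (rtr ι (a i * y)) := by
  classical
  let _ := ι.toAlgebra
  have : IsScalarTower ℚ K L := inferInstance
  have : FiniteDimensional K L := Module.Finite.of_restrictScalars_finite ℚ K L
  let e := Module.finBasis K L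
  let d := (Algebra.traceForm K L).dualBasis (traceForm_nondegenerate K L) e
  refine ⟨_, e, d, fun y => ?_⟩
  have h1 := d.sum_repr y
  conv_lhs => rw [← h1]
  refine Finset.sum_congr rfl fun i _ => ?_
  have h2 : d.repr y i = rtr ι (e i * y) := by
    rw [LinearMap.BilinForm.dualBasis_repr_apply, Algebra.traceForm_apply, mul_comm]
    rfl
  rw [h2, Algebra.smul_def, mul_comm]
  rfl

end

end Pool.Agent.W547.KB
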